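import Mathlib
import Pool.Agent.H68.L.R_seed8.Y700.Defs

/-!
# Local lemmas for the isogeny Selmer sets of `Y² = X³ + a X² + b X`
-/

set_option autoImplicit false

namespace Pool.Agent.Y814.BSD14

variable {l : ℕ} [hl : Fact l.Prime]

theorem val_eq_of_norm_eq {u w : ℚ_[l]} (hu : u ≠ 0) (hw : w ≠ 0) (h : ‖u‖ = ‖w‖) :
    u.valuation = w.valuation := by
  rw [Padic.norm_eq_zpow_neg_valuation hu, Padic.norm_eq_zpow_neg_valuation hw] at h
  have h1 : (1 : ℝ) < l := by exact_mod_cast hl.out.one_lt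
  have := zpow_right_injective₀ (by positivity) h1.ne' h
  simpa using this

theorem norm_eq_one_of_val {u : ℚ_[l]} (hu : u ≠ 0) (h : u.valuation = 0) : ‖u‖ = 1 := by
  rw [Padic.norm_eq_zpow_neg_valuation hu, h]; simp

theorem val_neg_of_one_lt {u : ℚ_[l]} (hu : u ≠ 0) : u.valuation < 0 ↔ 1 < ‖u‖ := by
  rw [Padic.norm_eq_zpow_neg_valuation hu]
  have h1 : (1 : ℝ) < l := by exact_mod_cast hl.out.one_lt
  rw [one_lt_zpow_iff_right₀ h1]; omega

theorem val_pos_of_lt_one {u : ℚ_[l]} (hu : u ≠ 0) : 0 < u.valuation ↔ ‖u‖ < 1 := by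
  rw [Padic.norm_eq_zpow_neg_valuation hu]
  have h1 : (1 : ℝ) < l := by exact_mod_cast hl.out.one_lt
  rw [zpow_lt_one_iff_right₀ h1]; omega

theorem val_of_norm_one {u : ℚ_[l]} (h : ‖u‖ = 1) : u.valuation = 0 := by
  have hu : u ≠ 0 := by rintro rfl; simp at h
  have h1 := val_neg_of_one_lt hu
  have h2 := val_pos_of_lt_one hu
  rw [h] at h1 h2
  simp at h1 h2
  omega

theorem even_of_sq {t u : ℚ_[l]} (h : t ^ 2 = u) : Even u.valuation := by
  rw [← h, Padic.valuation_pow]; exact ⟨t.valuation, by push_cast; ring⟩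

theorem norm_quad_large {x : ℚ_[l]} (a b : ℤ) (hx : 1 < ‖x‖) :
    ‖x ^ 2 + a * x + b‖ = ‖x ^ 2‖ := by
  have ha : ‖(a : ℚ_[l])‖ ≤ 1 := Padic.norm_int_le_one a
  have hb : ‖(b : ℚ_[l])‖ ≤ 1 := Padic.norm_int_le_one b
  have h1 : ‖(a : ℚ_[l]) * x + b‖ ≤ ‖x‖ := by
    refine (Padic.nonarchimedean _ _).trans (max_le ?_ (hb.trans hx.le))
    rw [norm_mul]
    nlinarith [norm_nonneg x]
  have h2 : ‖x‖ < ‖x ^ 2‖ := by rw [norm_pow]; nlinarith
  rw [add_assoc, Padic.add_eq_max_of_ne (by linarith : ‖x ^ 2‖ ≠ ‖(a : ℚ_[l]) * x + b‖) |>.trans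
    (max_eq_left (by linarith))]

theorem norm_quad_small {x : ℚ_[l]} (a b : ℤ) (hb : ¬ (l : ℤ) ∣ b) (hx : ‖x‖ < 1) :
    ‖x ^ 2 + a * x + b‖ = 1 := by
  have ha : ‖(a : ℚ_[l])‖ ≤ 1 := Padic.norm_int_le_one a
  have hb1 : ‖(b : ℚ_[l])‖ = 1 := by
    refine le_antisymm (Padic.norm_int_le_one b) (not_lt.1 fun h => hb ?_)
    exact Padic.norm_intCast_lt_one_iff.1 h
  have h1 : ‖x ^ 2 + (a : ℚ_[l]) * x‖ < 1 := by
    refine lt_of_le_of_lt (Padic.nonarchimedean _ _) (max_lt ?_ ?_)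
    · rw [norm_pow]; nlinarith [norm_nonneg x]
    · rw [norm_mul]; nlinarith [norm_nonneg x]
  rw [Padic.add_eq_max_of_ne (by rw [hb1]; exact h1.ne), hb1]
  exact max_eq_right h1.le

/-- the valuation of `x` is even at the primes that do not divide `b` -/
theorem even_val {x y : ℚ_[l]} {a b : ℤ} (hb : ¬ (l : ℤ) ∣ b) (hy : y ≠ 0)
    (h : y ^ 2 = x ^ 3 + a * x ^ 2 + b * x) : Even x.valuation := by
  have hx : x ≠ 0 := by
    rintro rfl
    apply hy
    simpa using h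
  have h' : y ^ 2 = x * (x ^ 2 + a * x + b) := by rw [h]; ring
  have hP : x ^ 2 + a * x + b ≠ 0 := by
    intro h0; rw [h0, mul_zero] at h'; exact hy (by simpa using h')
  have hv := congrArg Padic.valuation h'
  rw [Padic.valuation_mul hx hP, Padic.valuation_pow] at hv
  push_cast at hv
  rcases lt_trichotomy x.valuation 0 with h0 | h0 | h0
  · have h1 := val_eq_of_norm_eq hP (pow_ne_zero 2 hx)
      (norm_quad_large a b ((val_neg_of_one_lt hx).1 h0))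
    rw [Padic.valuation_pow] at h1
    push_cast at h1
    exact ⟨y.valuation - x.valuation, by omega⟩
  · rw [h0]; exact ⟨0, rfl⟩
  · have h1 := val_of_norm_one (norm_quad_small a b hb ((val_pos_of_lt_one hx).1 h0))
    exact ⟨y.valuation, by omega⟩

/-- the case of a prime dividing the twisting parameter -/
theorem scaled {x y : ℚ_[l]} {a b : ℤ} (hb : ¬ (l : ℤ) ∣ b) (hy : y ≠ 0)
    (h : y ^ 2 = x ^ 3 + ((l : ℤ) * a : ℤ) * x ^ 2 + ((l : ℤ) ^ 2 * b : ℤ) * x)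
    (hodd : Odd x.valuation) :
    ∃ r : ℤ_[l], x = l * r ∧ ‖r‖ = 1 ∧
      (PadicInt.toZMod r) ^ 2 + (a : ZMod l) * PadicInt.toZMod r + (b : ZMod l) = 0 := by
  have hl0 : (l : ℚ_[l]) ≠ 0 := by exact_mod_cast hl.out.ne_zero
  have hx : x ≠ 0 := by
    rintro rfl
    apply hy
    simpa using h
  obtain ⟨x1, rfl⟩ : ∃ x1, x = l * x1 := ⟨x / l, by field_simp⟩
  obtain ⟨y1, rfl⟩ : ∃ y1, y = l * y1 := ⟨y / l, by field_simp⟩
  have hx1 : x1 ≠ 0 := right_ne_zero_of_mul hx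
  have hy1 : y1 ≠ 0 := right_ne_zero_of_mul hy
  have h' : y1 ^ 2 = l * (x1 * (x1 ^ 2 + a * x1 + b)) := by
    have : (l : ℚ_[l]) ^ 2 ≠ 0 := pow_ne_zero 2 hl0
    apply mul_left_cancel₀ this
    push_cast at h
    linear_combination h
  have hP : x1 ^ 2 + a * x1 + b ≠ 0 := by
    intro h0; rw [h0, mul_zero, mul_zero] at h'; exact hy1 (by simpa using h')
  have hv := congrArg Padic.valuation h'
  rw [Padic.valuation_mul hl0 (mul_ne_zero hx1 hP), Padic.valuation_mul hx1 hP,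
    Padic.valuation_pow, Padic.valuation_p] at hv
  push_cast at hv
  rw [Padic.valuation_mul hl0 hx1, Padic.valuation_p] at hodd
  obtain ⟨k, hk⟩ := hodd
  rcases lt_trichotomy x1.valuation 0 with h0 | h0 | h0
  · exfalso
    have h1 := val_eq_of_norm_eq hP (pow_ne_zero 2 hx1)
      (norm_quad_large a b ((val_neg_of_one_lt hx1).1 h0))
    rw [Padic.valuation_pow] at h1
    push_cast at h1
    omega
  · have hn : ‖x1‖ = 1 := norm_eq_one_of_val hx1 h0
    refine ⟨⟨x1, hn.le⟩, rfl, hn, ?_⟩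
    set r : ℤ_[l] := ⟨x1, hn.le⟩ with hr
    have hcoe : ((r ^ 2 + (a : ℤ_[l]) * r + (b : ℤ_[l]) : ℤ_[l]) : ℚ_[l]) =
        x1 ^ 2 + a * x1 + b := by
      push_cast; rfl
    have hlt : ‖(r ^ 2 + (a : ℤ_[l]) * r + (b : ℤ_[l]) : ℤ_[l])‖ < 1 := by
      refine lt_of_le_of_ne (PadicInt.norm_le_one _) fun h1 => ?_
      rw [PadicInt.norm_def, hcoe] at h1
      have := val_of_norm_one h1
      omega
    have hmem : (r ^ 2 + (a : ℤ_[l]) * r + (b : ℤ_[l]) : ℤ_[l]) ∈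
        RingHom.ker (PadicInt.toZMod (p := l)) := by
      rw [PadicInt.ker_toZMod]
      rw [IsLocalRing.mem_maximalIdeal, mem_nonunits_iff, PadicInt.isUnit_iff]
      exact hlt.ne
    rw [RingHom.mem_ker] at hmem
    simpa using hmem
  · exfalso
    have h1 := val_of_norm_one (norm_quad_small a b hb ((val_pos_of_lt_one hx1).1 h0))
    omega

/-- a square in `ℚ_l` of a unit times an integer is a square modulo `l` -/
theorem square_mod {r : ℤ_[l]} {c : ℤ} (hr : ‖r‖ = 1) (h : IsSquare ((r : ℚ_[l]) * c)) :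
    IsSquare (PadicInt.toZMod r * (c : ZMod l)) := by
  obtain ⟨t, ht⟩ := h
  have ht1 : ‖t‖ ≤ 1 := by
    have h1 : ‖t‖ * ‖t‖ = ‖(r : ℚ_[l])‖ * ‖(c : ℚ_[l])‖ := by rw [← norm_mul, ← norm_mul, ht]
    have h2 : ‖(r : ℚ_[l])‖ = 1 := hr
    rw [h2, one_mul] at h1
    have h3 := Padic.norm_int_le_one (p := l) c
    by_contra h4
    push Not at h4
    nlinarith
  obtain ⟨s, hs⟩ : ∃ s : ℤ_[l], (s : ℚ_[l]) = t := ⟨⟨t, ht1⟩, rfl⟩
  have h5 : r * (c : ℤ_[l]) = s * s := by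
    apply PadicInt.ext
    push_cast
    rw [hs]
    exact ht
  have h6 := congrArg (PadicInt.toZMod (p := l)) h5
  rw [map_mul, map_mul, map_intCast] at h6
  exact ⟨_, h6⟩

end Pool.Agent.Y814.BSD14
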