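import Mathlib
import Pool.Agent.H68.L.R_seed8.Y700.Defs
import Pool.Agent.H68.L.R_seed8.Y814.BSD14.SelLocal

/-!
# The first isogeny Selmer set of the twists of `X_0(14)`
-/

set_option autoImplicit false

namespace Pool.Agent.Y814.BSD14

open Pool.Agent.Y700

variable {l : ℕ} [hl : Fact l.Prime]

theorem only_prime {q0 : ℕ} {z : ℤ} (hz : Squarefree z)
    (h : ∀ q : ℕ, q.Prime → (q : ℤ) ∣ z → q = q0) : z.natAbs = 1 ∨ z.natAbs = q0 := by
  have hn : Squarefree z.natAbs := Int.squarefree_natAbs.2 hz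
  by_cases h1 : z.natAbs = 1
  · exact Or.inl h1
  · right
    obtain ⟨q, hq, hqd⟩ := Nat.exists_prime_and_dvd h1
    have hqq : q = q0 := h q hq (Int.natCast_dvd.2 hqd)
    subst hqq
    obtain ⟨k, hk⟩ := hqd
    rw [hk]
    have hk1 : k = 1 := by
      by_contra hk1
      obtain ⟨r, hr, hrd⟩ := Nat.exists_prime_and_dvd hk1
      have hrr : r = q := h r hr (Int.natCast_dvd.2 (hk ▸ hrd.mul_left q))
      subst hrr
      have h2 : r * r ∣ z.natAbs := by rw [hk]; exact Nat.mul_dvd_mul_left r hrd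
      have := hn r h2
      exact hr.one_lt.ne' (Nat.isUnit_iff.1 this)
    rw [hk1, mul_one]

theorem not_dvd_of_sqf {l : ℕ} (hl : l.Prime) {z z' : ℤ} (hz : Squarefree z) (h : z = l * z') :
    ¬ (l : ℤ) ∣ z' := by
  rintro ⟨k, rfl⟩
  have h1 : (l : ℤ) * l ∣ z := ⟨k, by rw [h]; ring⟩
  have h2 := Int.isUnit_iff.1 (hz _ h1)
  have h3 := hl.one_lt
  rcases h2 with h2 | h2
  · have : l = 1 := by exact_mod_cast h2
    omega
  · omega

theorem odd_val {x : ℚ_[l]} {z : ℤ} (hx : x ≠ 0) (hz : Squarefree z) (hd : (l : ℤ) ∣ z)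
    (h : IsSquare (x * (z : ℚ_[l]))) : Odd x.valuation := by
  obtain ⟨t, ht⟩ := h
  obtain ⟨z', rfl⟩ := hd
  have h1 := not_dvd_of_sqf hl.out hz rfl
  have hz0 : (z' : ℚ_[l]) ≠ 0 := by
    have : z' ≠ 0 := by rintro rfl; exact h1 (dvd_zero _)
    exact_mod_cast this
  have hl0 : (l : ℚ_[l]) ≠ 0 := by exact_mod_cast hl.out.ne_zero
  have hn : ‖(z' : ℚ_[l])‖ = 1 := by
    refine le_antisymm (Padic.norm_int_le_one z') (not_lt.1 fun h => h1 ?_)
    exact Padic.norm_intCast_lt_one_iff.1 h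
  have hv := congrArg Padic.valuation ht
  rw [← pow_two, Padic.valuation_pow] at hv
  push_cast at hv
  rw [Padic.valuation_mul hx (mul_ne_zero hl0 hz0), Padic.valuation_mul hl0 hz0,
    Padic.valuation_p, val_of_norm_one hn] at hv
  exact ⟨t.valuation - 1, by omega⟩

theorem ne_zero_of_eq {x y : ℚ_[l]} {a b : ℤ} (hy : y ≠ 0)
    (h : y ^ 2 = x ^ 3 + a * x ^ 2 + b * x) : x ≠ 0 := by
  rintro rfl
  apply hy
  simpa using h

/-- at a prime dividing `z` the pair `(x, z)` gives a unit root which is a square times `z / l` -/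
theorem root_of_PC {A B : ℤ} {z : ℤ} (hz : Squarefree z) (hd : (l : ℤ) ∣ z)
    (hB : ¬ (l : ℤ) ∣ B) (h : PC (l * A) (l ^ 2 * B) l z) :
    ∃ r : ZMod l, r ^ 2 + (A : ZMod l) * r + (B : ZMod l) = 0 ∧ r ≠ 0 ∧
      ∀ z' : ℤ, z = l * z' → IsSquare (r * (z' : ZMod l)) := by
  obtain ⟨x, y, hy, h1, h2⟩ := h
  have hx := ne_zero_of_eq hy h1
  obtain ⟨r, hxr, hr1, hr2⟩ := scaled hB hy h1 (odd_val hx hz hd h2)
  refine ⟨PadicInt.toZMod r, hr2, ?_, ?_⟩
  · intro h0
    have h3 : r ∈ RingHom.ker (PadicInt.toZMod (p := l)) := h0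
    rw [PadicInt.ker_toZMod, IsLocalRing.mem_maximalIdeal, mem_nonunits_iff,
      PadicInt.isUnit_iff] at h3
    exact h3 hr1
  · rintro z' rfl
    refine square_mod hr1 ?_
    obtain ⟨t, ht⟩ := h2
    have hl0 : (l : ℚ_[l]) ≠ 0 := by exact_mod_cast hl.out.ne_zero
    refine ⟨t / l, ?_⟩
    rw [hxr] at ht
    push_cast at ht
    field_simp
    linear_combination ht

theorem not_dvd_of_PC {a b : ℤ} {z : ℤ} (hz : Squarefree z) (hb : ¬ (l : ℤ) ∣ b)
    (h : PC a b l z) : ¬ (l : ℤ) ∣ z := by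
  intro hd
  obtain ⟨x, y, hy, h1, h2⟩ := h
  have hx := ne_zero_of_eq hy h1
  have h3 := odd_val hx hz hd h2
  have h4 := even_val hb hy h1
  exact (Int.not_odd_iff_even.2 h4) h3

theorem cast_ne {l : ℕ} (hl : l.Prime) {q : ℕ} (hq : q.Prime) (h : l ≠ q) :
    (q : ZMod l) ≠ 0 := by
  intro h0
  have := (ZMod.natCast_eq_zero_iff q l).1 h0
  exact h ((Nat.prime_dvd_prime_iff_eq hl hq).1 this)

theorem prime_not_dvd_m {m p : ℕ} (H : Hy m p) {z : ℤ} (hz : Squarefree z) {q : ℕ} (hq : q.Prime)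
    (hqm : q ∣ m) (c1 c2 : ℤ)
    (hc2 : ∀ q : ℕ, q.Prime → q ≠ 2 → q ≠ 7 → ¬ (q : ℤ) ∣ c2)
    (hroot : ∀ (M r : ZMod q), M ≠ 0 → r ^ 2 + c1 * M * r + c2 * M ^ 2 = 0 →
      IsSquare (-7 : ZMod q) ∨ IsSquare (2 : ZMod q))
    (h : ∀ (l : ℕ) [Fact l.Prime], PC (c1 * (p * m)) (c2 * (p * m) ^ 2) l z) :
    ¬ (q : ℤ) ∣ z := by
  intro hd
  have : Fact q.Prime := ⟨hq⟩
  obtain ⟨n2, n7, hs7, hs2⟩ := H.two q hq hqm
  obtain ⟨m', rfl⟩ := hqm
  have hM' : ¬ (q : ℤ) ∣ (p * m' : ℤ) := by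
    refine not_dvd_of_sqf hq H.sqf ?_
    push_cast; ring
  have hqP : Prime (q : ℤ) := Nat.prime_iff_prime_int.1 hq
  have hB : ¬ (q : ℤ) ∣ c2 * (p * m') ^ 2 := by
    intro h0
    rcases hqP.dvd_or_dvd h0 with h0 | h0
    · exact hc2 q hq n2 n7 h0
    · exact hM' (hqP.dvd_of_dvd_pow h0)
  have h1 := h q
  rw [show c1 * (p * ((q * m' : ℕ) : ℤ)) = q * (c1 * (p * m')) by push_cast; ring,
    show c2 * (p * ((q * m' : ℕ) : ℤ)) ^ 2 = (q : ℤ) ^ 2 * (c2 * (p * m') ^ 2) by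
      push_cast; ring] at h1
  obtain ⟨r, hr, -, -⟩ := root_of_PC hz hd hB h1
  have hM0 : ((p * m' : ℤ) : ZMod q) ≠ 0 := by
    intro h0
    exact hM' ((ZMod.intCast_zmod_eq_zero_iff_dvd _ _).1 h0)
  rcases hroot ((p * m' : ℤ) : ZMod q) r hM0 (by rw [← hr]; push_cast; ring) with h2 | h2
  · exact hs7 h2
  · exact hs2 h2

theorem sel1 : S_SEL1 := by
  intro m p H z hz hz0 h
  have hp : p.Prime := H.pp
  have hpP : Prime (p : ℤ) := Nat.prime_iff_prime_int.1 hp
  -- the primes different from `2` and `p`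
  have key : ∀ q : ℕ, q.Prime → (q : ℤ) ∣ z → q = 2 ∨ q = p := by
    intro q hq hqz
    by_contra hcon
    push Not at hcon
    obtain ⟨h2, hqp⟩ := hcon
    have : Fact q.Prime := ⟨hq⟩
    have hqP : Prime (q : ℤ) := Nat.prime_iff_prime_int.1 hq
    by_cases hqm : q ∣ m
    · obtain ⟨n2, n7, hs7, hs2⟩ := H.two q hq hqm
      refine prime_not_dvd_m H hz hq hqm 13 128 ?_ ?_ h hqz
      · intro q hq n2 n7 h0
        have h1 : q ∣ 128 := by exact_mod_cast h0
        rw [show (128 : ℕ) = 2 ^ 7 by norm_num] at h1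
        exact n2 ((Nat.prime_dvd_prime_iff_eq hq Nat.prime_two).1 (hq.dvd_of_dvd_pow h1))
      · intro M r hM hr
        left
        have n7' : (7 : ZMod q) ≠ 0 := by exact_mod_cast cast_ne hq (by norm_num : (7 : ℕ).Prime) n7
        refine ⟨(2 * r + 13 * M) / (7 * M), ?_⟩
        push_cast at hr
        field_simp
        linear_combination -4 * hr
    · refine not_dvd_of_PC hz ?_ (h q) hqz
      intro h0
      rcases hqP.dvd_or_dvd h0 with h0 | h0
      · have h1 : q ∣ 128 := by exact_mod_cast h0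
        rw [show (128 : ℕ) = 2 ^ 7 by norm_num] at h1
        exact h2 ((Nat.prime_dvd_prime_iff_eq hq Nat.prime_two).1 (hq.dvd_of_dvd_pow h1))
      · have h1 := hqP.dvd_of_dvd_pow h0
        rcases hqP.dvd_or_dvd h1 with h1 | h1
        · have h1' : q ∣ p := by exact_mod_cast h1
          exact hqp ((Nat.prime_dvd_prime_iff_eq hq hp).1 h1')
        · exact hqm (by exact_mod_cast h1)
  have hnp : ¬ (p : ℤ) ∣ z := by
    rintro hpz
    have : Fact p.Prime := ⟨hp⟩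
    have p2 : p ≠ 2 := by rintro rfl; have := H.p8; omega
    have hB : ¬ (p : ℤ) ∣ 128 * (m : ℤ) ^ 2 := by
      intro h0
      rcases hpP.dvd_or_dvd h0 with h0 | h0
      · have h1 : p ∣ 128 := by exact_mod_cast h0
        rw [show (128 : ℕ) = 2 ^ 7 by norm_num] at h1
        exact p2 ((Nat.prime_dvd_prime_iff_eq hp Nat.prime_two).1 (hp.dvd_of_dvd_pow h1))
      · exact H.pm (by exact_mod_cast hpP.dvd_of_dvd_pow h0)
    have h1 := h p
    rw [show (13 : ℤ) * (p * m) = p * (13 * m) by ring,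
      show (128 : ℤ) * (p * m) ^ 2 = (p : ℤ) ^ 2 * (128 * m ^ 2) by ring] at h1
    obtain ⟨r, hr, -, hr2⟩ := root_of_PC hz hpz hB h1
    obtain ⟨z', hz'⟩ := hpz
    have hr3 := hr2 z' hz'
    have hns : ¬ IsSquare r := H.root r (by rw [← hr]; push_cast; ring)
    have hpz' := not_dvd_of_sqf hp hz hz'
    have hz'sq : Squarefree z' := hz.squarefree_of_dvd ⟨p, by rw [hz']; ring⟩
    have h12 : z'.natAbs = 1 ∨ z'.natAbs = 2 := by
      refine only_prime hz'sq ?_
      intro q hq hqz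
      rcases key q hq (by rw [hz']; exact hqz.mul_left _) with h4 | h4
      · exact h4
      · subst h4; exact absurd hqz hpz'
    have hz'0 : 0 < z' := by
      have : (0 : ℤ) < p := by exact_mod_cast hp.pos
      rw [hz'] at hz0
      exact (mul_pos_iff_of_pos_left this).1 hz0
    have hs2 : IsSquare (2 : ZMod p) := by
      rw [ZMod.exists_sq_eq_two_iff p2]
      exact Or.inl H.p8
    have hz12 : z' = 1 ∨ z' = 2 := by omega
    rcases hz12 with h5 | h5
    · rw [h5] at hr3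
      apply hns; simpa using hr3
    · rw [h5] at hr3
      apply hns
      obtain ⟨s, hs⟩ := hs2
      obtain ⟨t, ht⟩ := hr3
      have n2 : (2 : ZMod p) ≠ 0 := by exact_mod_cast cast_ne hp Nat.prime_two p2
      have hs0 : s ≠ 0 := by rintro rfl; apply n2; rw [hs]; ring
      refine ⟨t / s, ?_⟩
      push_cast at ht
      field_simp
      linear_combination ht - r * hs
  have h12 : z.natAbs = 1 ∨ z.natAbs = 2 := by
    refine only_prime hz ?_
    intro q hq hqz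
    rcases key q hq hqz with h4 | h4
    · exact h4
    · subst h4; exact absurd hqz hnp
  omega

end Pool.Agent.Y814.BSD14
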