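import Mathlib
import Pool.Agent.H68.L.R_seed8.Y700.Defs
import Pool.Agent.H68.L.R_seed8.Y814.BSD14.Sel1

/-!
# The second isogeny Selmer set of the twists of `X_0(14)`
-/

set_option autoImplicit false

namespace Pool.Agent.Y814.BSD14

open Pool.Agent.Y700

theorem sq16 : ∀ x : ZMod 16, x ^ 2 = 0 ∨ x ^ 2 = 1 ∨ x ^ 2 = 4 ∨ x ^ 2 = 9 := by decide

theorem mod4_16 (M : ℤ) (hM : M % 4 = 1) :
    (M : ZMod 16) = 1 ∨ (M : ZMod 16) = 5 ∨ (M : ZMod 16) = 9 ∨ (M : ZMod 16) = 13 := by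
  have h : M % 16 = 1 ∨ M % 16 = 5 ∨ M % 16 = 9 ∨ M % 16 = 13 := by omega
  have h2 : (M : ZMod 16) = ((M % 16 : ℤ) : ZMod 16) := by
    rw [ZMod.intCast_eq_intCast_iff]
    exact (Int.mod_modEq M 16).symm
  rcases h with h | h | h | h <;> rw [h2, h] <;> simp

theorem unit16 : ∀ x y : ZMod 16, x * y = 1 → x ^ 2 = 1 ∨ x ^ 2 = 9 := by decide

theorem key16a : ∀ M n W E : ZMod 16, (M = 1 ∨ M = 5 ∨ M = 9 ∨ M = 13) →
    (n = 0 ∨ n = 1 ∨ n = 4 ∨ n = 9) → (W = 0 ∨ W = 1 ∨ W = 4 ∨ W = 9) →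
    (E = 0 ∨ E = 1 ∨ E = 4 ∨ E = 9) → ((W = 1 ∨ W = 9) ∨ (E = 1 ∨ E = 9)) →
    ¬ (n = -(W ^ 2 + 26 * M * W * E - 343 * M ^ 2 * E ^ 2)) := by
  rintro M n W E (rfl | rfl | rfl | rfl) (rfl | rfl | rfl | rfl) (rfl | rfl | rfl | rfl)
    (rfl | rfl | rfl | rfl)
  all_goals decide

theorem key16b : ∀ M n W E : ZMod 16, (M = 1 ∨ M = 5 ∨ M = 9 ∨ M = 13) →
    (n = 0 ∨ n = 1 ∨ n = 4 ∨ n = 9) → (W = 0 ∨ W = 1 ∨ W = 4 ∨ W = 9) →
    (E = 0 ∨ E = 1 ∨ E = 4 ∨ E = 9) → ((W = 1 ∨ W = 9) ∨ (E = 1 ∨ E = 9)) →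
    ¬ (n = 7 * W ^ 2 - 26 * M * W * E - 49 * M ^ 2 * E ^ 2) := by
  rintro M n W E (rfl | rfl | rfl | rfl) (rfl | rfl | rfl | rfl) (rfl | rfl | rfl | rfl)
    (rfl | rfl | rfl | rfl)
  all_goals decide

/-- a `2`-adic number as a quotient of two integers, one of them a unit -/
theorem two_adic_frac (s : ℚ_[2]) : ∃ r e : ℤ_[2], (e : ℚ_[2]) ≠ 0 ∧ s = (r : ℚ_[2]) / e ∧
    ((∃ r', r * r' = 1) ∨ ∃ e', e * e' = 1) := by
  by_cases hs : ‖s‖ ≤ 1
  · exact ⟨⟨s, hs⟩, 1, by simp, by simp, Or.inr ⟨1, by simp⟩⟩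
  · push Not at hs
    have hs0 : s ≠ 0 := by rintro rfl; simp at hs; linarith
    have h1 : ‖s⁻¹‖ ≤ 1 := by
      rw [norm_inv]; exact inv_le_one_of_one_le₀ hs.le
    refine ⟨1, ⟨s⁻¹, h1⟩, inv_ne_zero hs0, ?_, Or.inl ⟨1, by simp⟩⟩
    simp

theorem no_pt (M c1 c2 c3 : ℤ)
    (key : ∀ n W E : ZMod 16, (n = 0 ∨ n = 1 ∨ n = 4 ∨ n = 9) →
      (W = 0 ∨ W = 1 ∨ W = 4 ∨ W = 9) → (E = 0 ∨ E = 1 ∨ E = 4 ∨ E = 9) →
      ((W = 1 ∨ W = 9) ∨ (E = 1 ∨ E = 9)) →
      ¬ (n = c1 * W ^ 2 + c2 * M * W * E + c3 * M ^ 2 * E ^ 2)) (s N : ℚ_[2])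
    (h : N ^ 2 = c1 * s ^ 4 + c2 * M * s ^ 2 + c3 * M ^ 2) : False := by
  obtain ⟨r, e, he, hs, hu⟩ := two_adic_frac s
  obtain ⟨f⟩ : Nonempty (ℤ_[2] →+* ZMod 16) := ⟨by simpa using PadicInt.toZModPow (p := 2) 4⟩
  set P : ℤ_[2] := c1 * r ^ 4 + c2 * M * r ^ 2 * e ^ 2 + c3 * M ^ 2 * e ^ 4 with hP
  have h1 : (N * e ^ 2) ^ 2 = (P : ℚ_[2]) := by
    rw [mul_pow, h, hs, hP]
    push_cast
    field_simp
  have h2 : ‖N * (e : ℚ_[2]) ^ 2‖ ≤ 1 := by
    have h3 : ‖N * (e : ℚ_[2]) ^ 2‖ ^ 2 ≤ 1 := by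
      rw [← norm_pow, h1]; exact P.2
    by_contra h4
    push Not at h4
    nlinarith
  obtain ⟨n, hn⟩ : ∃ n : ℤ_[2], (n : ℚ_[2]) = N * (e : ℚ_[2]) ^ 2 := ⟨⟨_, h2⟩, rfl⟩
  have h5 : n ^ 2 = P := by
    apply PadicInt.ext
    push_cast
    rw [hn, h1]
  have h6 := congrArg f h5
  rw [hP] at h6
  simp only [map_pow, map_mul, map_add, map_intCast] at h6
  refine key _ _ _ (sq16 (f n)) (sq16 (f r)) (sq16 (f e)) ?_ (h6.trans (by ring))
  rcases hu with ⟨r', hr'⟩ | ⟨e', he'⟩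
  · left
    exact unit16 (f r) (f r') (by rw [← map_mul, hr', map_one])
  · right
    exact unit16 (f e) (f e') (by rw [← map_mul, he', map_one])

theorem not_neg_one {M : ℤ} (hM : M % 4 = 1) : ¬ PC (-26 * M) (-343 * M ^ 2) 2 (-1) := by
  rintro ⟨x, y, hy, h1, t, ht⟩
  have hx : x = -t ^ 2 := by push_cast at ht; linear_combination -ht
  subst hx
  have ht0 : t ≠ 0 := by
    rintro rfl
    apply hy
    simpa using h1
  refine no_pt M (-1) (-26) 343 ?_ t (y / t) ?_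
  · intro n W E hn hW hE hu h
    refine key16a M n W E (mod4_16 M hM) hn hW hE hu (h.trans ?_)
    push_cast; ring
  · push_cast at h1 ⊢
    field_simp
    linear_combination h1

theorem not_seven {M : ℤ} (hM : M % 4 = 1) : ¬ PC (-26 * M) (-343 * M ^ 2) 2 7 := by
  rintro ⟨x, y, hy, h1, t, ht⟩
  have hx : x = 7 * (t / 7) ^ 2 := by
    push_cast at ht; field_simp; linear_combination ht
  subst hx
  set s := t / 7 with hs
  have ht0 : s ≠ 0 := by
    intro h0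
    rw [h0] at h1
    apply hy
    simpa using h1
  refine no_pt M 7 (-26) (-49) ?_ s (y / (7 * s)) ?_
  · intro n W E hn hW hE hu h
    refine key16b M n W E (mod4_16 M hM) hn hW hE hu (h.trans ?_)
    push_cast; ring
  · push_cast at h1 ⊢
    field_simp
    linear_combination h1

theorem dvd_343 {q : ℕ} (hq : q.Prime) (n7 : q ≠ 7) : ¬ (q : ℤ) ∣ -343 := by
  intro h0
  have h1 : q ∣ 343 := by
    have := (dvd_neg (a := (q : ℤ)) (b := 343)).1 h0
    exact_mod_cast this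
  rw [show (343 : ℕ) = 7 ^ 3 by norm_num] at h1
  exact n7 ((Nat.prime_dvd_prime_iff_eq hq (by norm_num)).1 (hq.dvd_of_dvd_pow h1))

theorem sel2 : S_SEL2 := by
  intro m p H z hz h0
  have hp : p.Prime := H.pp
  have hpP : Prime (p : ℤ) := Nat.prime_iff_prime_int.1 hp
  have p2 : p ≠ 2 := by rintro rfl; have := H.p8; omega
  have h : ∀ (l : ℕ) [Fact l.Prime], PC (-26 * (p * m)) (-343 * (p * m) ^ 2) l z := by
    intro l _
    have := h0 l
    rwa [show (-2 : ℤ) * (13 * (p * m)) = -26 * (p * m) by ring,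
      show ((13 : ℤ) * (p * m)) ^ 2 - 4 * (128 * (p * m) ^ 2) = -343 * (p * m) ^ 2 by ring] at this
  -- the primes different from `7` and `p`
  have key : ∀ q : ℕ, q.Prime → (q : ℤ) ∣ z → q = 7 ∨ q = p := by
    intro q hq hqz
    by_contra hcon
    push Not at hcon
    obtain ⟨h2, hqp⟩ := hcon
    have : Fact q.Prime := ⟨hq⟩
    have hqP : Prime (q : ℤ) := Nat.prime_iff_prime_int.1 hq
    by_cases hqm : q ∣ m
    · obtain ⟨n2, n7, hs7, hs2⟩ := H.two q hq hqm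
      refine prime_not_dvd_m H hz hq hqm (-26) (-343) ?_ ?_ h hqz
      · intro q hq n2 n7
        exact dvd_343 hq n7
      · intro M r hM hr
        right
        have n2' : (2 : ZMod q) ≠ 0 := by exact_mod_cast cast_ne hq Nat.prime_two n2
        have n16 : (16 : ZMod q) ≠ 0 := by
          rw [show (16 : ZMod q) = 2 ^ 4 by norm_num]; exact pow_ne_zero _ n2'
        refine ⟨(r - 13 * M) / (16 * M), ?_⟩
        push_cast at hr
        field_simp
        linear_combination -hr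
    · refine not_dvd_of_PC hz ?_ (h q) hqz
      intro h0
      rcases hqP.dvd_or_dvd h0 with h0 | h0
      · exact dvd_343 hq h2 h0
      · have h1 := hqP.dvd_of_dvd_pow h0
        rcases hqP.dvd_or_dvd h1 with h1 | h1
        · have h1' : q ∣ p := by exact_mod_cast h1
          exact hqp ((Nat.prime_dvd_prime_iff_eq hq hp).1 h1')
        · exact hqm (by exact_mod_cast h1)
  have hnp : ¬ (p : ℤ) ∣ z := by
    rintro hpz
    have : Fact p.Prime := ⟨hp⟩
    have hB : ¬ (p : ℤ) ∣ -343 * (m : ℤ) ^ 2 := by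
      intro h0
      rcases hpP.dvd_or_dvd h0 with h0 | h0
      · exact dvd_343 hp H.p7 h0
      · exact H.pm (by exact_mod_cast hpP.dvd_of_dvd_pow h0)
    have h1 := h p
    rw [show (-26 : ℤ) * (p * m) = p * (-26 * m) by ring,
      show (-343 : ℤ) * (p * m) ^ 2 = (p : ℤ) ^ 2 * (-343 * m ^ 2) by ring] at h1
    obtain ⟨r, hr, hr0, hr2⟩ := root_of_PC hz hpz hB h1
    obtain ⟨z', hz'⟩ := hpz
    have hr3 := hr2 z' hz'
    have hpz' := not_dvd_of_sqf hp hz hz'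
    have hz'sq : Squarefree z' := hz.squarefree_of_dvd ⟨p, by rw [hz']; ring⟩
    have h12 : z'.natAbs = 1 ∨ z'.natAbs = 7 := by
      refine only_prime hz'sq ?_
      intro q hq hqz
      rcases key q hq (by rw [hz']; exact hqz.mul_left _) with h4 | h4
      · exact h4
      · subst h4; exact absurd hqz hpz'
    have n2 : (2 : ZMod p) ≠ 0 := by exact_mod_cast cast_ne hp Nat.prime_two p2
    have n7 : (7 : ZMod p) ≠ 0 := by
      exact_mod_cast cast_ne hp (by norm_num : (7 : ℕ).Prime) H.p7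
    obtain ⟨s2, hs2⟩ : IsSquare (2 : ZMod p) := by
      rw [ZMod.exists_sq_eq_two_iff p2]
      exact Or.inl H.p8
    obtain ⟨i, hi⟩ : IsSquare (-1 : ZMod p) := by
      rw [ZMod.exists_sq_eq_neg_one_iff]
      have := H.p8
      omega
    obtain ⟨s7, hs7⟩ := H.sev
    have hi0 : i ≠ 0 := by
      rintro rfl
      have : (1 : ZMod p) = 0 := by linear_combination -hi
      exact one_ne_zero this
    have hs70 : s7 ≠ 0 := by
      rintro rfl
      apply n7
      linear_combination -hs7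
    -- `r` is a square
    have hrs : IsSquare r := by
      obtain ⟨t, ht⟩ := hr3
      have hz4 : z' = 1 ∨ z' = -1 ∨ z' = 7 ∨ z' = -7 := by omega
      rcases hz4 with h5 | h5 | h5 | h5 <;> rw [h5] at ht <;> push_cast at ht
      · exact ⟨t, by linear_combination ht⟩
      · refine ⟨t / i, ?_⟩
        field_simp
        linear_combination ht - r * hi
      · refine ⟨t * i / s7, ?_⟩
        field_simp
        linear_combination -r * hs7 + t ^ 2 * hi - ht
      · refine ⟨t / s7, ?_⟩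
        field_simp
        linear_combination ht - r * hs7
    -- a root of the other polynomial
    obtain ⟨al, hal⟩ : ∃ al : ZMod p, al = (-13 * m + 7 * m * s7) / 2 := ⟨_, rfl⟩
    have hal1 : al ^ 2 + 13 * (m : ZMod p) * al + 128 * (m : ZMod p) ^ 2 = 0 := by
      rw [hal]
      field_simp
      linear_combination -49 * (m : ZMod p) ^ 2 * hs7
    have hns : ¬ IsSquare al := H.root al hal1
    apply hns
    obtain ⟨s, hsdef⟩ : ∃ s : ZMod p, s = 8 * m * s2 := ⟨_, rfl⟩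
    have hs : s ^ 2 = 128 * (m : ZMod p) ^ 2 := by
      rw [hsdef]; linear_combination -64 * (m : ZMod p) ^ 2 * hs2
    have hrr : (r - 13 * m - 2 * s) * (r - 13 * m + 2 * s) = 0 := by
      push_cast at hr
      linear_combination hr - 4 * hs
    obtain ⟨t, ht⟩ := hrs
    have ht0 : t ≠ 0 := by
      rintro rfl
      apply hr0
      rw [ht]; ring
    rcases mul_eq_zero.1 hrr with h6 | h6
    · refine ⟨i * (al - s) / t, ?_⟩
      field_simp
      linear_combination -al * ht + al * h6 + hal1 + hs + (al - s) ^ 2 * hi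
    · refine ⟨i * (al + s) / t, ?_⟩
      field_simp
      linear_combination -al * ht + al * h6 + hal1 + hs + (al + s) ^ 2 * hi
  have h12 : z.natAbs = 1 ∨ z.natAbs = 7 := by
    refine only_prime hz ?_
    intro q hq hqz
    rcases key q hq hqz with h4 | h4
    · exact h4
    · subst h4; exact absurd hqz hnp
  have hM : ((p : ℤ) * m) % 4 = 1 := by
    have h1 := H.m4
    have h2 := H.p8
    have : (p * m) % 4 = 1 := by
      have h3 : p % 4 = 1 := by omega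
      rw [Nat.mul_mod, h3, h1]
    exact_mod_cast this
  have e1 : z ≠ -1 := by
    rintro rfl
    exact not_neg_one hM (h 2)
  have e2 : z ≠ 7 := by
    rintro rfl
    exact not_seven hM (h 2)
  omega

end Pool.Agent.Y814.BSD14
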